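import Mathlib

/-!
The nine element poset `1 + (1 || (2 + 2 + 2)) + 1`, where `+` is the ordinal sum and `||` the
disjoint union, `2` is the two element antichain and `1` the one element poset.

Elements: `0` is the bottom, `8` is the top, `1` is the lonely middle element, and
`{2,3} < {4,5} < {6,7}` is the ordinal sum of three antichains of size two.
-/

set_option autoImplicit false

namespace Pool.Agent.Lib.MP_4a5947_co

/-- A nine element type. -/
structure P9 where
  /-- the label -/
  val : Fin 9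
deriving DecidableEq, Fintype

/-- strict order of the poset, as a Boolean table -/
def ltB (a b : Fin 9) : Bool :=
  (decide (a ≠ b)) && ((a == 0) || (b == 8) ||
    (decide (2 ≤ a.val) && decide (b.val ≤ 7) && decide (a.val / 2 < b.val / 2)))

instance : LE P9 := ⟨fun a b => a.val = b.val ∨ ltB a.val b.val = true⟩
instance : LT P9 := ⟨fun a b => ltB a.val b.val = true⟩

theorem le_def (a b : P9) : a ≤ b ↔ (a.val = b.val ∨ ltB a.val b.val = true) := Iff.rfl
theorem lt_def (a b : P9) : a < b ↔ ltB a.val b.val = true := Iff.rfl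

instance decLE (a b : P9) : Decidable (a ≤ b) :=
  inferInstanceAs (Decidable (a.val = b.val ∨ ltB a.val b.val = true))
instance decLT (a b : P9) : Decidable (a < b) :=
  inferInstanceAs (Decidable (ltB a.val b.val = true))

theorem aux_refl : ∀ a : P9, a ≤ a := by decide
theorem aux_trans : ∀ a b c : P9, a ≤ b → b ≤ c → a ≤ c := by decide
theorem aux_lt : ∀ a b : P9, a < b ↔ a ≤ b ∧ ¬ b ≤ a := by decide
theorem aux_anti : ∀ a b : P9, a ≤ b → b ≤ a → a = b := by decide

instance : PartialOrder P9 where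
  le_refl := aux_refl
  le_trans := aux_trans
  lt_iff_le_not_ge := aux_lt
  le_antisymm := aux_anti

/-- element with a given label -/
def e (i : Fin 9) : P9 := ⟨i⟩

/-- the covering relation, as a decidable proposition -/
def Cov (x y : P9) : Prop := x < y ∧ ∀ z : P9, x < z → ¬ z < y

instance (x y : P9) : Decidable (Cov x y) :=
  inferInstanceAs (Decidable (x < y ∧ ∀ z : P9, x < z → ¬ z < y))

theorem covBy_iff (x y : P9) : x ⋖ y ↔ Cov x y := by
  constructor
  · rintro ⟨h1, h2⟩; exact ⟨h1, fun z hz => h2 hz⟩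
  · rintro ⟨h1, h2⟩; exact ⟨h1, fun z hz => h2 z hz⟩

/-- the seven edges of weight one -/
def E7 : Finset (P9 × P9) :=
  {(e 0, e 1), (e 0, e 2), (e 2, e 4), (e 3, e 5), (e 5, e 6), (e 6, e 8), (e 1, e 8)}

theorem card_E7 : E7.card = 7 := by decide

theorem card_P9 : Fintype.card P9 = 9 := by decide

/-- No induced `N`. -/
theorem noN : ¬ ∃ a b c d : P9, a < b ∧ c < b ∧ c < d ∧ ¬ a ≤ c ∧ ¬ c ≤ a ∧
        ¬ a ≤ d ∧ ¬ d ≤ a ∧ ¬ b ≤ d ∧ ¬ d ≤ b := by
  decide +kernel

/-- A proper two colouring of the covering graph. -/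
def col (x : P9) : Bool := (x.val == 0) || (x.val == 4) || (x.val == 5) || (x.val == 8)

theorem col_ok : ∀ x y : P9, Cov x y → col x ≠ col y := by decide +kernel

theorem no_one_edge : ∀ x y : P9, Cov x y →
    ∃ x' y' : P9, Cov x' y' ∧ Cov x' y ∧ Cov x y' ∧ (x' ≠ x ∨ y' ≠ y) := by decide +kernel

theorem E7_cov : ∀ p ∈ E7, Cov p.1 p.2 := by decide +kernel

theorem cut_le_two : ∀ x y : P9, Cov x y →
    (E7.filter (fun p => Cov p.1 p.2 ∧ Cov p.1 y ∧ Cov x p.2)).card ≤ 2 := by decide +kernel

theorem bifan_le_two : ∀ v : P9,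
    (E7.filter (fun p => Cov p.1 p.2 ∧ (p.1 = v ∨ p.2 = v))).card ≤ 2 := by decide +kernel

end Pool.Agent.Lib.MP_4a5947_co
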