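import Pool.Agent.Lib.MP_4a5947_co.Base

set_option autoImplicit false

namespace Pool.Agent.Lib.MP_4a5947_co

/-- the weighting: one on the seven chosen edges, zero elsewhere -/
def wt (x y : P9) : ℕ := if (x, y) ∈ E7 then 1 else 0

/-- `L` is a linear extension -/
def IsLinExt (L : P9 ≃ Fin (Fintype.card P9)) : Prop := ∀ x y : P9, x < y → L x < L y

theorem ite_pair {p q : Prop} [Decidable p] [Decidable q] (h : ¬ (p ∧ q)) :
    (if p then 1 else 0 : ℕ) + (if q then 1 else 0) ≤ 1 := by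
  by_cases hp : p <;> by_cases hq : q <;> simp_all

theorem le_three (L : P9 ≃ Fin (Fintype.card P9)) (hL : IsLinExt L) :
    (∑ p ∈ E7, if (L p.2 : ℕ) = (L p.1 : ℕ) + 1 then 1 else 0) ≤ 3 := by
  have lt' : ∀ i j : Fin 9, ltB i j = true → (L (e i) : ℕ) < (L (e j) : ℕ) := by
    intro i j h
    exact hL _ _ h
  have ne' : ∀ i j : Fin 9, i ≠ j → (L (e i) : ℕ) ≠ (L (e j) : ℕ) := by
    intro i j h h'
    apply h
    have h1 : L (e i) = L (e j) := Fin.ext h'
    have h2 := L.injective h1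
    exact congrArg P9.val h2
  have h01 := lt' 0 1 (by decide)
  have h02 := lt' 0 2 (by decide)
  have h03 := lt' 0 3 (by decide)
  have h24 := lt' 2 4 (by decide)
  have h25 := lt' 2 5 (by decide)
  have h34 := lt' 3 4 (by decide)
  have h35 := lt' 3 5 (by decide)
  have h46 := lt' 4 6 (by decide)
  have h56 := lt' 5 6 (by decide)
  have h57 := lt' 5 7 (by decide)
  have h68 := lt' 6 8 (by decide)
  have h78 := lt' 7 8 (by decide)
  have h18 := lt' 1 8 (by decide)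
  have h28 := lt' 2 8 (by decide)
  have n12 := ne' 1 2 (by decide)
  have n23 := ne' 2 3 (by decide)
  have n45 := ne' 4 5 (by decide)
  have n67 := ne' 6 7 (by decide)
  have n16 := ne' 1 6 (by decide)
  have hs : (∑ p ∈ E7, if (L p.2 : ℕ) = (L p.1 : ℕ) + 1 then 1 else 0) =
      (if (L (e 1) : ℕ) = (L (e 0) : ℕ) + 1 then 1 else 0) +
      ((if (L (e 2) : ℕ) = (L (e 0) : ℕ) + 1 then 1 else 0) +
      ((if (L (e 4) : ℕ) = (L (e 2) : ℕ) + 1 then 1 else 0) +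
      ((if (L (e 5) : ℕ) = (L (e 3) : ℕ) + 1 then 1 else 0) +
      ((if (L (e 6) : ℕ) = (L (e 5) : ℕ) + 1 then 1 else 0) +
      ((if (L (e 8) : ℕ) = (L (e 6) : ℕ) + 1 then 1 else 0) +
      (if (L (e 8) : ℕ) = (L (e 1) : ℕ) + 1 then 1 else 0)))))) := by
    unfold E7
    rw [Finset.sum_insert (by decide), Finset.sum_insert (by decide), Finset.sum_insert (by decide),
      Finset.sum_insert (by decide), Finset.sum_insert (by decide), Finset.sum_insert (by decide),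
      Finset.sum_singleton]
  rw [hs]
  have a1 : ¬ ((L (e 1) : ℕ) = (L (e 0) : ℕ) + 1 ∧ (L (e 2) : ℕ) = (L (e 0) : ℕ) + 1) := by omega
  have a2 : ¬ ((L (e 2) : ℕ) = (L (e 0) : ℕ) + 1 ∧ (L (e 4) : ℕ) = (L (e 2) : ℕ) + 1) := by omega
  have a3 : ¬ ((L (e 4) : ℕ) = (L (e 2) : ℕ) + 1 ∧ (L (e 5) : ℕ) = (L (e 3) : ℕ) + 1) := by omega
  have a4 : ¬ ((L (e 5) : ℕ) = (L (e 3) : ℕ) + 1 ∧ (L (e 6) : ℕ) = (L (e 5) : ℕ) + 1) := by omega
  have a5 : ¬ ((L (e 6) : ℕ) = (L (e 5) : ℕ) + 1 ∧ (L (e 8) : ℕ) = (L (e 6) : ℕ) + 1) := by omega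
  have a6 : ¬ ((L (e 8) : ℕ) = (L (e 6) : ℕ) + 1 ∧ (L (e 8) : ℕ) = (L (e 1) : ℕ) + 1) := by omega
  have a7 : ¬ ((L (e 8) : ℕ) = (L (e 1) : ℕ) + 1 ∧ (L (e 1) : ℕ) = (L (e 0) : ℕ) + 1) := by omega
  have b1 := ite_pair a1
  have b2 := ite_pair a2
  have b3 := ite_pair a3
  have b4 := ite_pair a4
  have b5 := ite_pair a5
  have b6 := ite_pair a6
  have b7 := ite_pair a7
  clear a1 a2 a3 a4 a5 a6 a7 hs lt' ne' hL
  omega

/-- The weight of a linear extension of the poset is at most three. -/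
theorem weight_le_three (L : P9 ≃ Fin (Fintype.card P9)) (hL : ∀ x y : P9, x < y → L x < L y)
    [DecidablePred (fun p : P9 × P9 => p.1 ⋖ p.2 ∧ (L p.2 : ℕ) = (L p.1 : ℕ) + 1)] :
    (∑ p ∈ Finset.univ.filter
      (fun p : P9 × P9 => p.1 ⋖ p.2 ∧ (L p.2 : ℕ) = (L p.1 : ℕ) + 1), wt p.1 p.2) ≤ 3 := by
  refine le_trans ?_ (le_three L hL)
  rw [Finset.sum_filter]
  have h1 : ∀ p : P9 × P9, (if p.1 ⋖ p.2 ∧ (L p.2 : ℕ) = (L p.1 : ℕ) + 1 then wt p.1 p.2 else 0)
      ≤ (if p ∈ E7 then (if (L p.2 : ℕ) = (L p.1 : ℕ) + 1 then 1 else 0) else 0) := by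
    intro p
    by_cases hp : p ∈ E7
    · by_cases hc : (L p.2 : ℕ) = (L p.1 : ℕ) + 1
      · simp only [wt, Prod.mk.eta, hp, hc, if_true, and_true]
        split_ifs <;> simp
      · simp [hc]
    · simp [wt, hp]
  refine le_trans (Finset.sum_le_sum (fun p _ => h1 p)) ?_
  rw [← Finset.sum_filter]
  apply le_of_eq
  congr 1
  ext p
  simp

/-- Any covering family has at least four members. -/
theorem four_le (k : ℕ) (F : Fin k → Set (P9 × P9))
    (hF : ∀ i : Fin k,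
      (∃ x y : P9, x ⋖ y ∧ F i = {p : P9 × P9 | p.1 ⋖ p.2 ∧ p.1 ⋖ y ∧ x ⋖ p.2}) ∨
      (∃ v : P9, F i = {p : P9 × P9 | p.1 ⋖ p.2 ∧ (p.1 = v ∨ p.2 = v)}))
    [∀ p : P9 × P9, DecidablePred (fun i : Fin k => p ∈ F i)]
    (hc : ∀ p : P9 × P9, p.1 ⋖ p.2 →
      wt p.1 p.2 ≤ (Finset.univ.filter (fun i : Fin k => p ∈ F i)).card) :
    4 ≤ k := by
  have h7 : 7 ≤ ∑ p ∈ E7, (Finset.univ.filter (fun i : Fin k => p ∈ F i)).card := by
    calc 7 = ∑ p ∈ E7, 1 := by rw [Finset.sum_const, card_E7]; rfl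
      _ ≤ _ := by
        apply Finset.sum_le_sum
        intro p hp
        have h1 := hc p ((covBy_iff _ _).2 (E7_cov p hp))
        have h2 : wt p.1 p.2 = 1 := by simp [wt, hp]
        omega
  have hsw : (∑ p ∈ E7, (Finset.univ.filter (fun i : Fin k => p ∈ F i)).card) =
      ∑ i : Fin k, (E7.filter (fun p => p ∈ F i)).card := by
    simp only [Finset.card_filter]
    exact Finset.sum_comm
  have h2k : (∑ i : Fin k, (E7.filter (fun p => p ∈ F i)).card) ≤ ∑ i : Fin k, 2 := by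
    apply Finset.sum_le_sum
    intro i _
    rcases hF i with ⟨x, y, hxy, hi⟩ | ⟨v, hi⟩
    · refine le_trans (le_of_eq ?_) (cut_le_two x y ((covBy_iff _ _).1 hxy))
      congr 1
      apply Finset.filter_congr
      intro p _
      rw [hi]
      simp only [Set.mem_ofPred_eq, covBy_iff]
    · refine le_trans (le_of_eq ?_) (bifan_le_two v)
      congr 1
      apply Finset.filter_congr
      intro p _
      rw [hi]
      simp only [Set.mem_ofPred_eq, covBy_iff]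
  have h3 : (∑ i : Fin k, 2) = 2 * k := by simp [mul_comm]
  omega

end Pool.Agent.Lib.MP_4a5947_co
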